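import Mathlib

set_option autoImplicit false

namespace Pool.Agent.Results.MP_ee2194_co.ConstantFactorExcess

open Finset Pointwise

/-- The sum index: the least number of distinct edge sums `f u + f v` over injective `f : V → ℤ`. -/
noncomputable def sumIndex {V : Type} (G : SimpleGraph V) : ℕ :=
  sInf {m | ∃ f : V → ℤ, Function.Injective f ∧ {s : ℤ | ∃ u v, G.Adj u v ∧ f u + f v = s}.ncard = m}

/-- The difference index: the least number of distinct edge differences `|f u - f v|` over
injective `f : V → ℤ`. -/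
noncomputable def diffIndex {V : Type} (G : SimpleGraph V) : ℕ :=
  sInf {m | ∃ f : V → ℤ, Function.Injective f ∧ {s : ℤ | ∃ u v, G.Adj u v ∧ |f u - f v| = s}.ncard = m}

lemma card_pos_neg (A : Finset ℤ) (h0 : (0 : ℤ) ∉ A) :
    (A.filter (fun x => 0 < x)).card + (A.filter (fun x => x < 0)).card = A.card := by
  rw [← Finset.card_union_of_disjoint]
  · congr 1
    ext x
    simp only [Finset.mem_union, Finset.mem_filter]
    constructor
    · rintro (h | h) <;> exact h.1
    · intro h
      rcases lt_trichotomy x 0 with h1 | h1 | h1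
      · exact Or.inr ⟨h, h1⟩
      · exact absurd (h1 ▸ h) h0
      · exact Or.inl ⟨h, h1⟩
  · rw [Finset.disjoint_left]
    intro x hx hy
    rw [Finset.mem_filter] at hx hy
    omega

lemma core_aux (k : ℕ) (A B E : Finset ℤ) (hA : A.card = k) (hB : B.card = k)
    (hAB : Disjoint A B) (h0A : (0 : ℤ) ∉ A) (h0B : (0 : ℤ) ∉ B) (h0E : (0 : ℤ) ∉ E)
    (hEs : ∀ x ∈ E, -x ∈ E) (hAE : A ⊆ E) (hBE : B ⊆ E) (hd : ∀ a ∈ A, ∀ b ∈ B, a - b ∈ E)
    (m : ℤ) (hm : m ∈ A) (hmin : ∀ x ∈ A ∪ B, m ≤ x) : 12 * k ≤ 5 * E.card + 2 := by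
  have hU : (A ∪ B).card = 2 * k := by
    rw [Finset.card_union_of_disjoint hAB, hA, hB]; ring
  have hUE : A ∪ B ⊆ E := Finset.union_subset hAE hBE
  have hpm : (E.filter (fun x => 0 < x)).card = (E.filter (fun x => x < 0)).card := by
    apply Finset.card_bij (fun x _ => -x)
    · intro x hx
      rw [Finset.mem_filter] at hx ⊢
      exact ⟨hEs x hx.1, by omega⟩
    · intro x _ y _ h; omega
    · intro y hy
      rw [Finset.mem_filter] at hy
      exact ⟨-y, by rw [Finset.mem_filter]; exact ⟨hEs y hy.1, by omega⟩, by omega⟩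
  have hE2 := card_pos_neg E h0E
  have hB2 := card_pos_neg B h0B
  have hA2 := card_pos_neg A h0A
  -- elements below the minimum
  have hlow : (E.filter (fun x => x < m)).card + 2 * k ≤ E.card := by
    rw [← hU, ← Finset.card_union_of_disjoint]
    · exact Finset.card_le_card (Finset.union_subset (Finset.filter_subset _ _) hUE)
    · rw [Finset.disjoint_left]
      intro x hx hx2
      rw [Finset.mem_filter] at hx
      have := hmin x hx2
      omega
  have h1 : (B.filter (fun x => 0 < x)).card ≤ (E.filter (fun x => x < m)).card := by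
    apply Finset.card_le_card_of_injOn (fun b => m - b)
    · intro b hb
      rw [Finset.mem_coe, Finset.mem_filter] at hb ⊢
      exact ⟨hd m hm b hb.1, by show m - b < m; omega⟩
    · intro x _ y _ h
      simp only at h
      omega
  have hne : (A ∪ B).Nonempty := ⟨m, Finset.mem_union_left _ hm⟩
  obtain ⟨M, hM, hmax⟩ : ∃ M ∈ A ∪ B, ∀ x ∈ A ∪ B, x ≤ M :=
    ⟨(A ∪ B).max' hne, Finset.max'_mem _ _, fun x hx => Finset.le_max' _ x hx⟩
  have hhigh : (E.filter (fun x => M < x)).card + 2 * k ≤ E.card := by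
    rw [← hU, ← Finset.card_union_of_disjoint]
    · exact Finset.card_le_card (Finset.union_subset (Finset.filter_subset _ _) hUE)
    · rw [Finset.disjoint_left]
      intro x hx hx2
      rw [Finset.mem_filter] at hx
      have := hmax x hx2
      omega
  rcases Finset.mem_union.mp hM with hMA | hMB
  · have h2 : (B.filter (fun x => x < 0)).card ≤ (E.filter (fun x => M < x)).card := by
      apply Finset.card_le_card_of_injOn (fun b => M - b)
      · intro b hb
        rw [Finset.mem_coe, Finset.mem_filter] at hb ⊢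
        exact ⟨hd M hMA b hb.1, by show M < M - b; omega⟩
      · intro x _ y _ h
        simp only at h
        omega
    omega
  · have h2 : (A.filter (fun x => x < 0)).card ≤ (E.filter (fun x => M < x)).card := by
      apply Finset.card_le_card_of_injOn (fun a => M - a)
      · intro a ha
        rw [Finset.mem_coe, Finset.mem_filter] at ha ⊢
        refine ⟨?_, by show M < M - a; omega⟩
        have := hEs _ (hd a ha.1 M hMB)
        rwa [neg_sub] at this
      · intro x _ y _ h
        simp only at h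
        omega
    by_cases hAp : (A.filter (fun x => 0 < x)).Nonempty
    · by_cases hBm : (B.filter (fun x => x < 0)).Nonempty
      · have h3 := cauchy_davenport_add_of_linearOrder_isCancelAdd hAp hBm.neg
        have h4 : (A.filter (fun x => 0 < x)) + (-(B.filter (fun x => x < 0))) ⊆
            E.filter (fun x => 0 < x) := by
          intro z hz
          rw [Finset.mem_add] at hz
          obtain ⟨a, ha, b, hb, rfl⟩ := hz
          rw [Finset.mem_neg] at hb
          obtain ⟨b', hb', rfl⟩ := hb
          rw [Finset.mem_filter] at ha hb' ⊢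
          refine ⟨?_, by omega⟩
          rw [← sub_eq_add_neg]
          exact hd a ha.1 b' hb'.1
        have h5 := Finset.card_le_card h4
        rw [Finset.card_neg] at h3
        omega
      · rw [Finset.not_nonempty_iff_eq_empty] at hBm
        rw [hBm, Finset.card_empty] at hB2
        omega
    · rw [Finset.not_nonempty_iff_eq_empty] at hAp
      rw [hAp, Finset.card_empty] at hA2
      omega

lemma core (k : ℕ) (A B E : Finset ℤ) (hA : A.card = k) (hB : B.card = k)
    (hAB : Disjoint A B) (h0A : (0 : ℤ) ∉ A) (h0B : (0 : ℤ) ∉ B) (h0E : (0 : ℤ) ∉ E)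
    (hEs : ∀ x ∈ E, -x ∈ E) (hAE : A ⊆ E) (hBE : B ⊆ E) (hd : ∀ a ∈ A, ∀ b ∈ B, a - b ∈ E) :
    12 * k ≤ 5 * E.card + 2 := by
  by_cases hne : (A ∪ B).Nonempty
  · obtain ⟨m, hm, hmin⟩ : ∃ m ∈ A ∪ B, ∀ x ∈ A ∪ B, m ≤ x :=
      ⟨(A ∪ B).min' hne, Finset.min'_mem _ _, fun x hx => Finset.min'_le _ x hx⟩
    rcases Finset.mem_union.mp hm with h | h
    · exact core_aux k A B E hA hB hAB h0A h0B h0E hEs hAE hBE hd m h hmin
    · refine core_aux k B A E hB hA hAB.symm h0B h0A h0E hEs hBE hAE ?_ m h ?_
      · intro b hb a ha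
        have := hEs _ (hd a ha b hb)
        rwa [neg_sub] at this
      · intro x hx
        rw [Finset.union_comm] at hx
        exact hmin x hx
  · rw [Finset.not_nonempty_iff_eq_empty, Finset.union_eq_empty] at hne
    rw [hne.1, Finset.card_empty] at hA
    omega

/-- complete bipartite graph plus a dominating vertex. -/
def G (k : ℕ) : SimpleGraph (Option (Fin k ⊕ Fin k)) where
  Adj u v := match u, v with
    | none, some _ => True
    | some _, none => True
    | some (Sum.inl _), some (Sum.inr _) => True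
    | some (Sum.inr _), some (Sum.inl _) => True
    | _, _ => False
  symm := ⟨by rintro (_ | _ | _) (_ | _ | _) h <;> first | exact h | trivial⟩
  loopless := ⟨by rintro (_ | _ | _) h <;> exact h⟩

lemma adj_none (k : ℕ) (x : Fin k ⊕ Fin k) : (G k).Adj none (some x) := trivial

lemma adj_lr (k : ℕ) (i j : Fin k) : (G k).Adj (some (Sum.inl i)) (some (Sum.inr j)) := trivial

lemma sum_finite (k : ℕ) (f : Option (Fin k ⊕ Fin k) → ℤ) :
    {s : ℤ | ∃ u v, (G k).Adj u v ∧ f u + f v = s}.Finite := by
  apply Set.Finite.subset (Set.finite_range (fun p : Option (Fin k ⊕ Fin k) × Option (Fin k ⊕ Fin k) => f p.1 + f p.2))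
  rintro s ⟨u, v, -, h⟩
  exact ⟨(u, v), h⟩

lemma diff_finite (k : ℕ) (f : Option (Fin k ⊕ Fin k) → ℤ) :
    {s : ℤ | ∃ u v, (G k).Adj u v ∧ |f u - f v| = s}.Finite := by
  apply Set.Finite.subset (Set.finite_range (fun p : Option (Fin k ⊕ Fin k) × Option (Fin k ⊕ Fin k) => |f p.1 - f p.2|))
  rintro s ⟨u, v, -, h⟩
  exact ⟨(u, v), h⟩

/-- a labelling with few sums. -/
def lab (k : ℕ) : Option (Fin k ⊕ Fin k) → ℤ
  | none => (k : ℤ) + 1
  | some (Sum.inl i) => (i.val : ℤ) + 1
  | some (Sum.inr j) => (k : ℤ) + 2 + j.val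

lemma lab_inj (k : ℕ) : Function.Injective (lab k) := by
  rintro (_ | i | j) (_ | i' | j') h
  · rfl
  · simp only [lab] at h; omega
  · simp only [lab] at h; omega
  · simp only [lab] at h; omega
  · simp only [lab] at h
    have : i = i' := Fin.ext (by omega)
    rw [this]
  · simp only [lab] at h; omega
  · simp only [lab] at h; omega
  · simp only [lab] at h; omega
  · simp only [lab] at h
    have : j = j' := Fin.ext (by omega)
    rw [this]

lemma sum_le (k : ℕ) : sumIndex (G k) ≤ 2 * k + 1 := by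
  have h1 : sumIndex (G k) ≤ {s : ℤ | ∃ u v, (G k).Adj u v ∧ lab k u + lab k v = s}.ncard :=
    Nat.sInf_le ⟨lab k, lab_inj k, rfl⟩
  refine h1.trans ?_
  have h2 : {s : ℤ | ∃ u v, (G k).Adj u v ∧ lab k u + lab k v = s} ⊆
      ((Finset.Icc ((k : ℤ) + 2) (3 * k + 2) : Finset ℤ) : Set ℤ) := by
    rintro s ⟨u, v, hadj, rfl⟩
    rw [Finset.mem_coe, Finset.mem_Icc]
    rcases u with _ | i | j <;> rcases v with _ | i' | j'
    · exact absurd hadj (fun h => h)
    · simp only [lab]; omega
    · simp only [lab]; omega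
    · simp only [lab]; omega
    · exact absurd hadj (fun h => h)
    · simp only [lab]; omega
    · simp only [lab]; omega
    · simp only [lab]; omega
    · exact absurd hadj (fun h => h)
  have h3 := Set.ncard_le_ncard h2 (Finset.finite_toSet _)
  rw [Set.ncard_coe_finset, Int.card_Icc] at h3
  omega

lemma le_sum (k : ℕ) : 2 * k ≤ sumIndex (G k) := by
  unfold sumIndex
  apply le_csInf
  · exact ⟨_, lab k, lab_inj k, rfl⟩
  · rintro m ⟨f, hf, rfl⟩
    have h1 : Set.range (fun x : Fin k ⊕ Fin k => f none + f (some x)) ⊆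
        {s : ℤ | ∃ u v, (G k).Adj u v ∧ f u + f v = s} := by
      rintro s ⟨x, rfl⟩
      exact ⟨none, some x, adj_none k x, rfl⟩
    have h2 := Set.ncard_le_ncard h1 (sum_finite k f)
    have h3 : (Set.range (fun x : Fin k ⊕ Fin k => f none + f (some x))).ncard = 2 * k := by
      rw [← Set.image_univ, Set.ncard_image_of_injective]
      · rw [Set.ncard_univ, Nat.card_eq_fintype_card, Fintype.card_sum, Fintype.card_fin]; ring
      · intro x y h
        simp only [add_right_inj] at h
        exact Option.some_injective _ (hf h)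
    omega

lemma le_diff (k : ℕ) : 6 * k ≤ 5 * diffIndex (G k) + 1 := by
  suffices h : ∀ m ∈ {m | ∃ f : Option (Fin k ⊕ Fin k) → ℤ, Function.Injective f ∧
      {s : ℤ | ∃ u v, (G k).Adj u v ∧ |f u - f v| = s}.ncard = m}, 6 * k ≤ 5 * m + 1 by
    exact h _ (Nat.sInf_mem ⟨_, lab k, lab_inj k, rfl⟩)
  rintro m ⟨f, hf, rfl⟩
  set D : Finset ℤ := (diff_finite k f).toFinset with hD
  have hDc : {s : ℤ | ∃ u v, (G k).Adj u v ∧ |f u - f v| = s}.ncard = D.card :=
    Set.ncard_eq_toFinset_card _ (diff_finite k f)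
  have hDm : ∀ u v, (G k).Adj u v → |f u - f v| ∈ D := by
    intro u v h
    rw [hD, Set.Finite.mem_toFinset]
    exact ⟨u, v, h, rfl⟩
  let E : Finset ℤ := D ∪ D.image (fun x => -x)
  have hEc : E.card ≤ 2 * D.card := by
    refine (Finset.card_union_le _ _).trans ?_
    have := Finset.card_image_le (s := D) (f := fun x : ℤ => -x)
    omega
  have hEm : ∀ u v, (G k).Adj u v → f u - f v ∈ E := by
    intro u v h
    have h1 := hDm u v h
    rcases abs_choice (f u - f v) with h2 | h2
    · rw [h2] at h1
      exact Finset.mem_union_left _ h1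
    · rw [h2] at h1
      apply Finset.mem_union_right
      rw [Finset.mem_image]
      exact ⟨_, h1, by ring⟩
  let A : Finset ℤ := Finset.univ.image (fun i : Fin k => f (some (Sum.inl i)) - f none)
  let B : Finset ℤ := Finset.univ.image (fun i : Fin k => f (some (Sum.inr i)) - f none)
  have hA : A.card = k := by
    rw [Finset.card_image_of_injective, Finset.card_univ, Fintype.card_fin]
    intro i j h
    simp only [sub_left_inj] at h
    exact Sum.inl_injective (Option.some_injective _ (hf h))
  have hB : B.card = k := by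
    rw [Finset.card_image_of_injective, Finset.card_univ, Fintype.card_fin]
    intro i j h
    simp only [sub_left_inj] at h
    exact Sum.inr_injective (Option.some_injective _ (hf h))
  have hAB : Disjoint A B := by
    rw [Finset.disjoint_left]
    intro x hx hy
    rw [Finset.mem_image] at hx hy
    obtain ⟨i, -, rfl⟩ := hx
    obtain ⟨j, -, hj⟩ := hy
    have h1 : f (some (Sum.inr j)) = f (some (Sum.inl i)) := by omega
    have := Option.some_injective _ (hf h1)
    exact absurd this (by simp)
  have h0A : (0 : ℤ) ∉ A := by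
    intro h
    rw [Finset.mem_image] at h
    obtain ⟨i, -, h⟩ := h
    exact absurd (hf (show f (some (Sum.inl i)) = f none by omega)) (by simp)
  have h0B : (0 : ℤ) ∉ B := by
    intro h
    rw [Finset.mem_image] at h
    obtain ⟨i, -, h⟩ := h
    exact absurd (hf (show f (some (Sum.inr i)) = f none by omega)) (by simp)
  have h0D : ∀ x ∈ D, 0 < x := by
    intro x hx
    rw [hD, Set.Finite.mem_toFinset] at hx
    obtain ⟨u, v, hadj, rfl⟩ := hx
    rw [abs_pos, sub_ne_zero]
    intro h
    exact hadj.ne (hf h)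
  have h0E : (0 : ℤ) ∉ E := by
    intro h
    rcases Finset.mem_union.mp h with h | h
    · exact absurd (h0D 0 h) (lt_irrefl _)
    · rw [Finset.mem_image] at h
      obtain ⟨x, hx, h⟩ := h
      have := h0D x hx
      omega
  have hEs : ∀ x ∈ E, -x ∈ E := by
    intro x hx
    rcases Finset.mem_union.mp hx with h | h
    · apply Finset.mem_union_right
      exact Finset.mem_image_of_mem _ h
    · rw [Finset.mem_image] at h
      obtain ⟨y, hy, rfl⟩ := h
      apply Finset.mem_union_left
      rwa [neg_neg]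
  have hAE : A ⊆ E := by
    intro x hx
    rw [Finset.mem_image] at hx
    obtain ⟨i, -, rfl⟩ := hx
    exact hEm _ _ (adj_none k _).symm
  have hBE : B ⊆ E := by
    intro x hx
    rw [Finset.mem_image] at hx
    obtain ⟨i, -, rfl⟩ := hx
    exact hEm _ _ (adj_none k _).symm
  have hd : ∀ a ∈ A, ∀ b ∈ B, a - b ∈ E := by
    intro a ha b hb
    rw [Finset.mem_image] at ha hb
    obtain ⟨i, -, rfl⟩ := ha
    obtain ⟨j, -, rfl⟩ := hb
    have := hEm _ _ (adj_lr k i j)
    rwa [sub_sub_sub_cancel_right]
  have := core k A B E hA hB hAB h0A h0B h0E hEs hAE hBE hd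
  omega

/-- For every constant `β` with `0 < β < 1/5` and every `N` there is a finite simple graph `G` with
sum index at least `N` and difference index at least `(1 + β)` times the rounded up half of the sum
index. -/
theorem result : ∀ β : ℝ, 0 < β → β < 1 / 5 → ∀ N : ℕ, ∃ (V : Type) (_ : Fintype V)
    (G : SimpleGraph V), N ≤ sumIndex G ∧
      (1 + β) * (⌈(sumIndex G : ℝ) / 2⌉ : ℝ) ≤ (diffIndex G : ℝ) := by
  intro β h0 h1 N
  obtain ⟨k, hkN, hk⟩ : ∃ k : ℕ, N ≤ k ∧ (6 / 5 + β) / (1 / 5 - β) ≤ (k : ℝ) :=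
    ⟨max N ⌈(6 / 5 + β) / (1 / 5 - β)⌉₊, le_max_left _ _,
      (Nat.le_ceil _).trans (by exact_mod_cast le_max_right _ _)⟩
  refine ⟨_, inferInstance, G k, ?_, ?_⟩
  · have := le_sum k; omega
  · have h2 : ⌈(sumIndex (G k) : ℝ) / 2⌉ ≤ ((k : ℤ) + 1) := by
      rw [Int.ceil_le]
      have h3 : (sumIndex (G k) : ℝ) ≤ 2 * k + 1 := by exact_mod_cast sum_le k
      push_cast
      linarith
    have h3 : (⌈(sumIndex (G k) : ℝ) / 2⌉ : ℝ) ≤ (k : ℝ) + 1 := by exact_mod_cast h2
    have h4 : (6 : ℝ) * k ≤ 5 * diffIndex (G k) + 1 := by exact_mod_cast le_diff k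
    rw [div_le_iff₀ (by linarith)] at hk
    have h5 : (1 + β) * (⌈(sumIndex (G k) : ℝ) / 2⌉ : ℝ) ≤ (1 + β) * (k + 1) :=
      mul_le_mul_of_nonneg_left h3 (by linarith)
    nlinarith [h5, hk, h4]

end Pool.Agent.Results.MP_ee2194_co.ConstantFactorExcess
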